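import Pool.Agent.V11328.L3.Ret

/-! Random lifts of the complete digraph on three vertices are not Hamiltonian with high
probability. -/

open Finset Equiv

namespace Pool.Agent.Results.MP_ff6929_pr.NotHamiltonian

open Pool.Agent.V11328.L3

/-- The choice of a perfect matching (a bijection) for each of the six arcs. -/
abbrev Conf (n : ℕ) := {e : Fin 3 × Fin 3 // e.1 ≠ e.2} → Equiv.Perm (Fin n)

/-- The arcs of the lift: `(x, a) → (y, b)` when `x ≠ y` and the matching of the arc `(x, y)`
joins `a` to `b`. -/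
def Arc {n : ℕ} (π : Conf n) (u v : Fin 3 × Fin n) : Prop :=
  ∃ h : u.1 ≠ v.1, π ⟨(u.1, v.1), h⟩ u.2 = v.2

/-- There is a directed cycle through all `3 * n` vertices of the lift. -/
def Hamiltonian {n : ℕ} (π : Conf n) : Prop :=
  ∃ c : ZMod (3 * n) ≃ Fin 3 × Fin n, ∀ i, Arc π (c i) (c (i + 1))

variable {n : ℕ}

lemma pai {α : Type*} (f : Perm α) (x : α) : f (f⁻¹ x) = x := f.apply_symm_apply x

lemma pia {α : Type*} (f : Perm α) (x : α) : f⁻¹ (f x) = x := f.symm_apply_apply x

/-- Total version of the matchings. -/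
noncomputable def pr (π : Conf n) (x z : Fin 3) : Perm (Fin n) :=
  if h : x ≠ z then π ⟨(x, z), h⟩ else 1

lemma arc_iff {π : Conf n} {u v : Fin 3 × Fin n} :
    Arc π u v ↔ u.1 ≠ v.1 ∧ pr π u.1 v.1 u.2 = v.2 := by
  unfold Arc pr
  constructor
  · rintro ⟨h, h2⟩
    exact ⟨h, by rw [dif_pos h]; exact h2⟩
  · rintro ⟨h, h2⟩
    rw [dif_pos h] at h2
    exact ⟨h, h2⟩

/-- One-factors. -/
def Fac (π : Conf n) (f : Perm (Fin 3 × Fin n)) : Prop := ∀ v, Arc π v (f v)

lemma fac_eq {π : Conf n} {f : Perm (Fin 3 × Fin n)} (hf : Fac π f) {x z : Fin 3} {a : Fin n}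
    (h : (f (x, a)).1 = z) : x ≠ z ∧ f (x, a) = (z, pr π x z a) := by
  have h1 := arc_iff.1 (hf (x, a))
  rw [h] at h1
  exact ⟨h1.1, Prod.ext h h1.2.symm⟩

lemma excl {π : Conf n} {f : Perm (Fin 3 × Fin n)} (hf : Fac π f) {x y z : Fin 3} (hxy : x ≠ y)
    (hxz : x ≠ z) (hyz : y ≠ z) {a b : Fin n} (hab : pr π x z a = pr π y z b) :
    (f (x, a)).1 = z ↔ ¬ (f (y, b)).1 = z := by
  constructor
  · intro h1 h2
    have e1 := (fac_eq hf h1).2
    have e2 := (fac_eq hf h2).2
    rw [hab, ← e2] at e1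
    have := f.injective e1
    simp only [Prod.mk.injEq] at this
    exact hxy this.1
  · intro h2
    by_contra h1
    obtain ⟨⟨w, d⟩, hv⟩ := f.surjective (z, pr π x z a)
    have h3 : (f (w, d)).1 = z := by rw [hv]
    have h4 := fac_eq hf h3
    rw [hv] at h4
    have h5 : pr π x z a = pr π w z d := by
      have := h4.2
      simp only [Prod.mk.injEq, true_and] at this
      exact this
    have h6 : w = x ∨ w = y := by
      have := h4.1
      fin_cases x <;> fin_cases y <;> fin_cases z <;> fin_cases w <;> simp_all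
    rcases h6 with rfl | rfl
    · have := (pr π w z).injective h5
      subst this
      exact h1 h3
    · rw [hab] at h5
      have := (pr π w z).injective h5
      subst this
      exact h2 h3

lemma third {π : Conf n} {f : Perm (Fin 3 × Fin n)} (hf : Fac π f) {x y z : Fin 3} (hxy : x ≠ y)
    (hxz : x ≠ z) (hyz : y ≠ z) (a : Fin n) : ¬ (f (x, a)).1 = y ↔ (f (x, a)).1 = z := by
  have h1 := (arc_iff.1 (hf (x, a))).1
  generalize (f (x, a)).1 = w at h1 ⊢
  fin_cases x <;> fin_cases y <;> fin_cases z <;> fin_cases w <;> simp_all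

/-- The monodromy permutation. -/
noncomputable def sg (π : Conf n) : Perm (Fin n) :=
  (pr π 0 2)⁻¹ * pr π 1 2 * ((pr π 1 0)⁻¹ * pr π 2 0) * ((pr π 2 1)⁻¹ * pr π 0 1)

open Classical in
/-- The vertices of the first class which go to the second class. -/
noncomputable def S0 (f : Perm (Fin 3 × Fin n)) : Finset (Fin n) :=
  univ.filter fun i => (f (0, i)).1 = 1

lemma S0_inv {π : Conf n} {f : Perm (Fin 3 × Fin n)} (hf : Fac π f) : S0 f ∈ inv (sg π) := by
  rw [Pool.Agent.V11328.L3.mem_inv]
  intro i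
  simp only [S0, mem_filter, mem_univ, true_and]
  have e1 : pr π 0 1 i = pr π 2 1 (((pr π 2 1)⁻¹ * pr π 0 1) i) := by
    rw [Perm.mul_apply, pai]
  rw [excl hf (x := 0) (y := 2) (z := 1) (by decide) (by decide) (by decide) e1,
    third hf (x := 2) (y := 1) (z := 0) (by decide) (by decide) (by decide)]
  set k := ((pr π 2 1)⁻¹ * pr π 0 1) i with hk
  have e2 : pr π 2 0 k = pr π 1 0 (((pr π 1 0)⁻¹ * pr π 2 0) k) := by
    rw [Perm.mul_apply, pai]
  rw [excl hf (x := 2) (y := 1) (z := 0) (by decide) (by decide) (by decide) e2,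
    third hf (x := 1) (y := 0) (z := 2) (by decide) (by decide) (by decide)]
  set l := ((pr π 1 0)⁻¹ * pr π 2 0) k with hl
  have e3 : pr π 1 2 l = pr π 0 2 (((pr π 0 2)⁻¹ * pr π 1 2) l) := by
    rw [Perm.mul_apply, pai]
  rw [excl hf (x := 1) (y := 0) (z := 2) (by decide) (by decide) (by decide) e3,
    third hf (x := 0) (y := 2) (z := 1) (by decide) (by decide) (by decide)]
  rw [hl, hk]
  rfl

lemma S0_inj {π : Conf n} {f g : Perm (Fin 3 × Fin n)} (hf : Fac π f) (hg : Fac π g)
    (h : S0 f = S0 g) : f = g := by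
  have h0 : ∀ i, (f (0, i)).1 = 1 ↔ (g (0, i)).1 = 1 := by
    intro i
    have := Finset.ext_iff.1 h i
    simpa [S0] using this
  have h2 : ∀ k, (f (2, k)).1 = 1 ↔ (g (2, k)).1 = 1 := by
    intro k
    have e : pr π 2 1 k = pr π 0 1 (((pr π 0 1)⁻¹ * pr π 2 1) k) := by
      rw [Perm.mul_apply, pai]
    rw [excl hf (x := 2) (y := 0) (z := 1) (by decide) (by decide) (by decide) e,
      excl hg (x := 2) (y := 0) (z := 1) (by decide) (by decide) (by decide) e, h0]
  have h2' : ∀ k, (f (2, k)).1 = 0 ↔ (g (2, k)).1 = 0 := by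
    intro k
    rw [← third hf (x := 2) (y := 1) (z := 0) (by decide) (by decide) (by decide),
      ← third hg (x := 2) (y := 1) (z := 0) (by decide) (by decide) (by decide), h2]
  have h1 : ∀ k, (f (1, k)).1 = 0 ↔ (g (1, k)).1 = 0 := by
    intro k
    have e : pr π 1 0 k = pr π 2 0 (((pr π 2 0)⁻¹ * pr π 1 0) k) := by
      rw [Perm.mul_apply, pai]
    rw [excl hf (x := 1) (y := 2) (z := 0) (by decide) (by decide) (by decide) e,
      excl hg (x := 1) (y := 2) (z := 0) (by decide) (by decide) (by decide) e, h2']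
  have fin : ∀ (x y z : Fin 3), x ≠ y → x ≠ z → y ≠ z →
      (∀ k, (f (x, k)).1 = y ↔ (g (x, k)).1 = y) → ∀ k, f (x, k) = g (x, k) := by
    intro x y z hxy hxz hyz hk k
    by_cases hy : (f (x, k)).1 = y
    · rw [(fac_eq hf hy).2, (fac_eq hg ((hk k).1 hy)).2]
    · have hy2 : ¬ (g (x, k)).1 = y := fun h3 => hy ((hk k).2 h3)
      rw [third hf hxy hxz hyz] at hy
      rw [third hg hxy hxz hyz] at hy2
      rw [(fac_eq hf hy).2, (fac_eq hg hy2).2]
  ext1 v
  obtain ⟨x, k⟩ := v
  fin_cases x
  · exact fin 0 1 2 (by decide) (by decide) (by decide) h0 k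
  · exact fin 1 0 2 (by decide) (by decide) (by decide) h1 k
  · exact fin 2 1 0 (by decide) (by decide) (by decide) h2 k

open Classical in
lemma card_fac (π : Conf n) : #(univ.filter fun f => Fac π f) ≤ #(inv (sg π)) := by
  refine Finset.card_le_card_of_injOn S0 ?_ ?_
  · intro f hf
    rw [mem_coe, mem_filter] at hf
    exact S0_inv hf.2
  · intro f hf g hg h
    rw [mem_coe, mem_filter] at hf hg
    exact S0_inj hf.2 hg.2 h

/-- Relabelling the heads in the first class. -/
def act (ρ : Perm (Fin n)) (π : Conf n) : Conf n := fun e => if e.1.2 = 0 then ρ * π e else π e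

/-- The same permutation acting on the vertices. -/
def hat (ρ : Perm (Fin n)) : Perm (Fin 3 × Fin n) where
  toFun v := if v.1 = 0 then (0, ρ v.2) else v
  invFun v := if v.1 = 0 then (0, ρ⁻¹ v.2) else v
  left_inv v := by
    obtain ⟨x, a⟩ := v
    by_cases h : x = 0 <;> simp [h]
  right_inv v := by
    obtain ⟨x, a⟩ := v
    by_cases h : x = 0 <;> simp [h]

lemma hat_zero (ρ : Perm (Fin n)) (a : Fin n) : hat ρ (0, a) = (0, ρ a) := by simp [hat]

lemma hat_ne (ρ : Perm (Fin n)) {v : Fin 3 × Fin n} (h : v.1 ≠ 0) : hat ρ v = v := by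
  simp [hat, h]

lemma hat_fst (ρ : Perm (Fin n)) (v : Fin 3 × Fin n) : (hat ρ v).1 = v.1 := by
  by_cases h : v.1 = 0
  · obtain ⟨x, a⟩ := v
    simp only at h
    subst h
    rw [hat_zero]
  · rw [hat_ne ρ h]

lemma fac_act {ρ : Perm (Fin n)} {π : Conf n} {g : Perm (Fin 3 × Fin n)} (hg : Fac (act ρ π) g) :
    Fac π ((hat ρ)⁻¹ * g) := by
  intro v
  obtain ⟨h1, h2⟩ := hg v
  have h3 : (((hat ρ)⁻¹ * g) v).1 = (g v).1 := by
    rw [Perm.mul_apply]
    conv_rhs => rw [← pai (hat ρ) (g v)]
    rw [hat_fst]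
  by_cases h0 : (g v).1 = 0
  · have h4 : g v = (0, (g v).2) := Prod.ext h0 rfl
    have h5 : ((hat ρ)⁻¹ * g) v = (0, ρ⁻¹ (g v).2) := by
      rw [Perm.mul_apply, Perm.inv_eq_iff_eq, hat_zero, pai]
      exact h4
    rw [arc_iff, h5]
    refine ⟨by simpa [h0] using h1, ?_⟩
    simp only [act] at h2
    rw [if_pos h0] at h2
    rw [← h2, Perm.mul_apply, pia]
    have h6 : v.1 ≠ 0 := by simpa [h0] using h1
    unfold pr
    rw [dif_pos h6]
    have h7 : (⟨(v.1, 0), h6⟩ : {e : Fin 3 × Fin 3 // e.1 ≠ e.2}) = ⟨(v.1, (g v).1), h1⟩ :=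
      Subtype.ext (Prod.ext rfl h0.symm)
    rw [h7]
  · have h5 : ((hat ρ)⁻¹ * g) v = g v := by
      rw [Perm.mul_apply, Perm.inv_eq_iff_eq, hat_ne ρ h0]
    rw [h5]
    refine ⟨h1, ?_⟩
    simp only [act] at h2
    rw [if_neg h0] at h2
    exact h2

lemma sg_act (ρ : Perm (Fin n)) (π : Conf n) : sg (act ρ π) = sg π := by
  have h : ∀ x z : Fin 3, x ≠ z → pr (act ρ π) x z = if z = 0 then ρ * pr π x z else pr π x z := by
    intro x z hxz
    unfold pr act
    rw [dif_pos hxz, dif_pos hxz]
  unfold sg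
  rw [h 0 2 (by decide), h 1 2 (by decide), h 1 0 (by decide), h 2 0 (by decide),
    h 2 1 (by decide), h 0 1 (by decide), if_neg (by decide), if_neg (by decide),
    if_pos rfl, if_pos rfl, if_neg (by decide), if_neg (by decide), mul_inv_rev]
  group

lemma act_bij (ρ : Perm (Fin n)) : Function.Bijective (act ρ : Conf n → Conf n) := by
  refine Finite.injective_iff_bijective.1 fun π π' h => ?_
  funext e
  have := congrFun h e
  simp only [act] at this
  split_ifs at this with h0
  · exact mul_left_cancel this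
  · exact this

/-- Relabelling the tails of one arc. -/
def act2 (τ : Perm (Fin n)) (π : Conf n) : Conf n := fun e => if e.1 = (0, 1) then π e * τ else π e

lemma sg_act2 (τ : Perm (Fin n)) (π : Conf n) : sg (act2 τ π) = sg π * τ := by
  have h : ∀ x z : Fin 3, x ≠ z → pr (act2 τ π) x z =
      if ((x, z) : Fin 3 × Fin 3) = (0, 1) then pr π x z * τ else pr π x z := by
    intro x z hxz
    unfold pr act2
    rw [dif_pos hxz, dif_pos hxz]
  unfold sg
  rw [h 0 2 (by decide), h 1 2 (by decide), h 1 0 (by decide), h 2 0 (by decide),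
    h 2 1 (by decide), h 0 1 (by decide), if_neg (by decide), if_neg (by decide),
    if_neg (by decide), if_neg (by decide), if_neg (by decide), if_pos rfl]
  group

lemma act2_bij (τ : Perm (Fin n)) : Function.Bijective (act2 τ : Conf n → Conf n) := by
  refine Finite.injective_iff_bijective.1 fun π π' h => ?_
  funext e
  have := congrFun h e
  simp only [act2] at this
  split_ifs at this with h0
  · exact mul_right_cancel this
  · exact this

lemma ham_fac (hn : 1 ≤ n) {π : Conf n} (h : Hamiltonian π) :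
    ∃ g : Perm (Fin 3 × Fin n), Fac π g ∧ Trans g := by
  obtain ⟨c, hc⟩ := h
  have : NeZero (3 * n) := ⟨by omega⟩
  refine ⟨(c.symm.trans (Equiv.addRight (1 : ZMod (3 * n)))).trans c, fun v => ?_, ?_⟩
  · have := hc (c.symm v)
    rw [Equiv.apply_symm_apply] at this
    simpa using this
  · have key : ∀ (k : ℕ) (i : ZMod (3 * n)),
        (((c.symm.trans (Equiv.addRight (1 : ZMod (3 * n)))).trans c) ^ k) (c i) = c (i + k) := by
      intro k
      induction k with
      | zero => intro i; simp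
      | succ k ih =>
        intro i
        rw [pow_succ', Perm.mul_apply, ih]
        simp [add_assoc]
    intro x y
    refine ⟨(c.symm y - c.symm x).val, ?_⟩
    have := key (c.symm y - c.symm x).val (c.symm x)
    rw [Equiv.apply_symm_apply] at this
    rw [this, ZMod.natCast_zmod_val]
    simp

open Classical in
lemma card_fibre (hn : 2 ≤ n) (π : Conf n) :
    #(univ.filter fun ρ : Perm (Fin n) => Hamiltonian (act ρ π)) ≤
      #(inv (sg π)) * (n - 1).factorial := by
  have hι : Function.Injective (fun a : Fin n => ((0 : Fin 3), a)) := by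
    intro a b h
    simpa using h
  have hsub : (univ.filter fun ρ : Perm (Fin n) => Hamiltonian (act ρ π)) ⊆
      (univ.filter fun f => Fac π f).biUnion fun f =>
        univ.filter fun ρ : Perm (Fin n) => Trans (ρ * retP f hι) := by
    intro ρ hρ
    rw [mem_filter] at hρ
    obtain ⟨g, hg, ht⟩ := ham_fac (by omega) hρ.2
    rw [mem_biUnion]
    refine ⟨(hat ρ)⁻¹ * g, ?_, ?_⟩
    · rw [mem_filter]
      exact ⟨mem_univ _, fac_act hg⟩
    · rw [mem_filter]
      refine ⟨mem_univ _, trans_ret _ hι (h := g) ?_ ?_ ht⟩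
      · intro v hv
        rw [Perm.mul_apply] at hv ⊢
        have h0 : ((hat ρ)⁻¹ (g v)).1 ≠ 0 := by
          intro h0
          exact hv ⟨((hat ρ)⁻¹ (g v)).2, Prod.ext h0.symm rfl⟩
        have := hat_ne ρ h0
        rw [pai] at this
        exact this
      · intro v b hb
        rw [Perm.mul_apply, Perm.inv_eq_iff_eq, hat_zero] at hb
        exact hb
  refine (card_le_card hsub).trans (card_biUnion_le.trans ?_)
  refine (Finset.sum_le_card_nsmul _ _ (n - 1).factorial fun f _ => ?_).trans ?_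
  · refine le_trans ?_ (card_trans hn)
    refine Finset.card_le_card_of_injOn (fun ρ => ρ * retP f hι) ?_ ?_
    · intro ρ hρ
      rw [mem_coe, mem_filter] at hρ ⊢
      exact ⟨mem_univ _, hρ.2⟩
    · intro ρ _ ρ' _ h
      exact mul_right_cancel h
  · rw [smul_eq_mul]
    exact Nat.mul_le_mul_right _ (card_fac π)

open Classical in
lemma card_ham_le (hn : 2 ≤ n) :
    (#(univ.filter fun π : Conf n => Hamiltonian π) : ℝ) ≤
      ∑ π : Conf n, Real.sqrt (#(inv (sg π)) / n) := by
  have hf : (0 : ℝ) < (n.factorial : ℝ) := by positivity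
  have hn0 : (0 : ℝ) < n := by
    have : 0 < n := by omega
    exact_mod_cast this
  have h1 : ∀ ρ : Perm (Fin n), #(univ.filter fun π : Conf n => Hamiltonian (act ρ π)) =
      #(univ.filter fun π : Conf n => Hamiltonian π) := by
    intro ρ
    refine Finset.card_bij (fun π _ => act ρ π) ?_ ?_ ?_
    · intro π hπ
      rw [mem_filter] at hπ ⊢
      exact ⟨mem_univ _, hπ.2⟩
    · intro π _ π' _ h
      exact (act_bij ρ).1 h
    · intro π hπ
      obtain ⟨π', h'⟩ := (act_bij ρ).2 π
      refine ⟨π', ?_, h'⟩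
      rw [mem_filter] at hπ ⊢
      rw [h']
      exact ⟨mem_univ _, hπ.2⟩
  have h2 : (n.factorial : ℝ) * #(univ.filter fun π : Conf n => Hamiltonian π) =
      ∑ π : Conf n, (#(univ.filter fun ρ : Perm (Fin n) => Hamiltonian (act ρ π)) : ℝ) := by
    have h3 : ∑ π : Conf n, #(univ.filter fun ρ : Perm (Fin n) => Hamiltonian (act ρ π)) =
        ∑ ρ : Perm (Fin n), #(univ.filter fun π : Conf n => Hamiltonian (act ρ π)) := by
      simp only [Finset.card_filter]
      exact Finset.sum_comm
    rw [Finset.sum_congr rfl fun ρ _ => h1 ρ, Finset.sum_const, card_univ, Fintype.card_perm,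
      Fintype.card_fin, smul_eq_mul] at h3
    exact_mod_cast h3.symm
  have h4 : ∀ π : Conf n, (#(univ.filter fun ρ : Perm (Fin n) => Hamiltonian (act ρ π)) : ℝ) ≤
      n.factorial * Real.sqrt (#(inv (sg π)) / n) := by
    intro π
    have a1 : (#(univ.filter fun ρ : Perm (Fin n) => Hamiltonian (act ρ π)) : ℝ) ≤
        n.factorial := by
      have := card_le_univ (univ.filter fun ρ : Perm (Fin n) => Hamiltonian (act ρ π))
      rw [Fintype.card_perm, Fintype.card_fin] at this
      exact_mod_cast this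
    have a2 : (#(univ.filter fun ρ : Perm (Fin n) => Hamiltonian (act ρ π)) : ℝ) ≤
        n.factorial * (#(inv (sg π)) / n) := by
      have := card_fibre hn π
      have a3 : (#(univ.filter fun ρ : Perm (Fin n) => Hamiltonian (act ρ π)) : ℝ) ≤
        #(inv (sg π)) * (n - 1).factorial := by exact_mod_cast this
      have a4 : (n.factorial : ℝ) = n * (n - 1).factorial := by
        rw [← Nat.mul_factorial_pred (by omega)]
        push_cast
        rfl
      rw [a4]
      calc _ ≤ (#(inv (sg π)) : ℝ) * (n - 1).factorial := a3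
        _ = _ := by field_simp
    have hx : (0 : ℝ) ≤ #(inv (sg π)) / n := by positivity
    rcases le_total ((#(inv (sg π)) : ℝ) / n) 1 with h | h
    · refine a2.trans (mul_le_mul_of_nonneg_left ?_ hf.le)
      exact Real.le_sqrt_of_sq_le (by nlinarith)
    · refine a1.trans ?_
      have : 1 ≤ Real.sqrt (#(inv (sg π)) / n) := by
        rw [Real.one_le_sqrt]
        exact h
      nlinarith
  have h5 := Finset.sum_le_sum fun (π : Conf n) (_ : π ∈ univ) => h4 π
  rw [← h2, ← Finset.mul_sum] at h5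
  exact le_of_mul_le_mul_left h5 hf

lemma card_conf : Fintype.card (Conf n) = n.factorial ^ 6 := by
  rw [Fintype.card_fun, Fintype.card_perm, Fintype.card_fin]
  congr 1

lemma sum_sg (F : Perm (Fin n) → ℝ) :
    ∑ π : Conf n, F (sg π) = (n.factorial : ℝ) ^ 6 * ((∑ s, F s) / n.factorial) := by
  have hf : (n.factorial : ℝ) ≠ 0 := by positivity
  have h1 : ∀ τ : Perm (Fin n), ∑ π : Conf n, F (sg π) = ∑ π : Conf n, F (sg π * τ) := by
    intro τ
    rw [← (Equiv.ofBijective _ (act2_bij τ)).sum_comp (fun π => F (sg π))]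
    refine Finset.sum_congr rfl fun π _ => ?_
    rw [Equiv.ofBijective_apply, sg_act2]
  have h2 : (n.factorial : ℝ) * ∑ π : Conf n, F (sg π) =
      ∑ τ : Perm (Fin n), ∑ π : Conf n, F (sg π * τ) := by
    rw [← Finset.sum_congr rfl fun τ _ => h1 τ, Finset.sum_const, card_univ, Fintype.card_perm,
      Fintype.card_fin, nsmul_eq_mul]
  rw [Finset.sum_comm] at h2
  have h3 : ∀ π : Conf n, ∑ τ : Perm (Fin n), F (sg π * τ) = ∑ s, F s := fun π =>
    Equiv.sum_comp (Equiv.mulLeft (sg π)) F
  rw [Finset.sum_congr rfl fun π _ => h3 π, Finset.sum_const, card_univ, card_conf,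
    nsmul_eq_mul] at h2
  have h4 : ∑ π : Conf n, F (sg π) = ((n.factorial ^ 6 : ℕ) : ℝ) * (∑ s, F s) / n.factorial := by
    rw [eq_div_iff hf, ← h2]
    ring
  rw [h4]
  push_cast
  ring

/-- The probability that the random `n`-lift of the complete digraph on three vertices is
Hamiltonian tends to `0`. -/
theorem result : Filter.Tendsto
    (fun n : ℕ => (Nat.card {π : Conf n // Hamiltonian π} : ℝ) / (Nat.card (Conf n) : ℝ))
    Filter.atTop (nhds 0) := by
  classical
  have hb : ∀ n : ℕ, 2 ≤ n → (Nat.card {π : Conf n // Hamiltonian π} : ℝ) /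
      (Nat.card (Conf n) : ℝ) ≤ 3 * (n : ℝ) ^ (-(1 / 20 : ℝ)) := by
    intro n hn
    have hn0 : (0 : ℝ) < n := by
      have : 0 < n := by omega
      exact_mod_cast this
    have hf : (0 : ℝ) < (n.factorial : ℝ) := by positivity
    have e1 : Nat.card {π : Conf n // Hamiltonian π} =
        #(univ.filter fun π : Conf n => Hamiltonian π) := by
      rw [Nat.card_eq_fintype_card, Fintype.card_subtype]
    have e2 : (Nat.card (Conf n) : ℝ) = (n.factorial : ℝ) ^ 6 := by
      rw [Nat.card_eq_fintype_card, card_conf]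
      push_cast
      rfl
    rw [e1, e2, div_le_iff₀ (by positivity)]
    refine (card_ham_le hn).trans ?_
    rw [sum_sg (fun s => Real.sqrt (#(inv s) / n))]
    have e3 : ∑ s : Perm (Fin n), Real.sqrt (#(inv s) / n) = mm n / Real.sqrt n := by
      unfold mm
      rw [Finset.sum_div]
      refine Finset.sum_congr rfl fun s _ => ?_
      rw [Real.sqrt_div (by positivity)]
    rw [e3]
    obtain ⟨m, rfl⟩ := Nat.exists_eq_add_of_le' (show 1 ≤ n by omega)
    have h1 := mm_le m
    have h2 : mm (m + 1) / Real.sqrt ((m + 1 : ℕ) : ℝ) / (m + 1).factorial ≤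
        3 * ((m + 1 : ℕ) : ℝ) ^ (-(1 / 20 : ℝ)) := by
      rw [div_div, div_le_iff₀ (by positivity)]
      refine h1.trans (le_of_eq ?_)
      rw [Real.sqrt_eq_rpow]
      have : ((m : ℝ) + 1) ^ (9 / 20 : ℝ) =
          ((m + 1 : ℕ) : ℝ) ^ (-(1 / 20 : ℝ)) * ((m + 1 : ℕ) : ℝ) ^ (1 / 2 : ℝ) := by
        rw [← Real.rpow_add (by positivity)]
        push_cast
        norm_num
      rw [this]
      ring
    nlinarith [pow_pos hf 6]
  have ht : Filter.Tendsto (fun n : ℕ => 3 * (n : ℝ) ^ (-(1 / 20 : ℝ))) Filter.atTop (nhds 0) := by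
    have := ((tendsto_rpow_neg_atTop (show (0 : ℝ) < 1 / 20 by norm_num)).comp
      tendsto_natCast_atTop_atTop).const_mul 3
    simpa using this
  refine squeeze_zero' (Filter.Eventually.of_forall fun n => by positivity) ?_ ht
  filter_upwards [Filter.eventually_ge_atTop 2] with n hn
  exact hb n hn

end Pool.Agent.Results.MP_ff6929_pr.NotHamiltonian
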